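import Mathlib
import Pool.Agent.Lib.MP_14f891_lc.Coll
import Pool.Agent.Lib.MP_14f891_lc.Fail

/-!
# `RCA₀ + WKL + BΣ⁰₂` does not prove `BRT²₂`

All definitions used in the statement are in `Pool/Agent/Lib/MP_14f891_lc/Defs.lean`: bounded
formulas of second order arithmetic and their truth in a structure `(M, 𝒳)`, the axioms of
`RCA₀`, weak König's lemma, `Σ⁰₂`-collection and `BRT²₂`.

The model: let `K` be a countable family of sequences of natural numbers, closed under countably
many operations, modulo a nonprincipal ultrafilter on `ℕ`. In `K` there is a graph on an interval
which has no clique of size `2 ^ n + 1` (`n` nonstandard) and in which a player wins a game of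
length `n` against partitions into few parts and independent sets (nested triangle-free shift
graphs, `Comb.lean`). A generic play of standard length gives a descending sequence of finite
sets `D₀ ⊇ D₁ ⊇ ⋯` of `K`; the first order part `M` is the initial segment of `K` determined by the
minima of the sets `D_i`, and the second order part consists of the sets coded in `K`, restricted
to `M`. The cut `M` is regular with respect to the coded partitions of `M` into fewer than `M`
parts, which gives `Σ⁰₁`-induction and `Σ⁰₂`-collection; `WKL` follows by overspill. Every
unbounded coded set contains an edge of the graph since the play also answers all coded sets.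
-/

namespace Pool.Agent.Results.MP_14f891_lc.WKLNotBRT

open BRT

/-- There is a model `(M, 𝒳)` of `RCA₀ + WKL + BΣ⁰₂` in which `BRT²₂` fails. -/
theorem result : ∃ (M : Type) (_ : CommSemiring M) (_ : LinearOrder M)
    (_ : IsStrictOrderedRing M) (𝒳 : Set (Set M)),
    RCA0 𝒳 ∧ WKL 𝒳 ∧ SigmaTwoColl 𝒳 ∧ ¬ BRT22 𝒳 :=
  ⟨MM, inferInstance, inferInstance, inferInstance, XX, mm_rca0, mm_wkl, mm_coll, mm_not_brt⟩

end Pool.Agent.Results.MP_14f891_lc.WKLNotBRT
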